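import Mathlib

/-!
# Degree-at-most-1 weight of threshold functions with at most one unequal weight

Splitting the cube at the exceptional coordinate gives two threshold functions of a sum of `m`
signs.  With `P k = sum_(j<k) C(m,j) - 2^(m-1)` and `Q k = k C(m,k)` the claim becomes
`2 m (P p ^ 2 + P q ^ 2) + (Q p + Q q) ^ 2 ≥ m 4^m (2 / pi)` for all `p, q ≤ m + 1`.  On the
diagonal this is the monotonicity of the weight in the threshold together with the Wallis product;
off the diagonal the expression is increasing and then decreasing in `p`, because its difference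
quotient `D` has increments with one sign change, so only the diagonal and the end point matter.
-/

namespace Pool.Agent.Results.MP_cb3c9c_an.OneUnequalWeight

open Finset

/-- `F n k`: sum of the first `k` binomial coefficients -/
def F (n k : ℕ) : ℕ := ∑ j ∈ range k, n.choose j

lemma F_succ (n k : ℕ) : F n (k + 1) = F n k + n.choose k := by
  unfold F; rw [sum_range_succ]

lemma F_pascal (n k : ℕ) : F (n + 1) (k + 1) = F n (k + 1) + F n k := by
  induction k with
  | zero => simp [F]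
  | succ k ih =>
    rw [F_succ (n + 1) (k + 1), ih, F_succ n (k + 1), F_succ n k, Nat.choose_succ_succ]
    ring

noncomputable def P (n k : ℕ) : ℝ := F n k - 2 ^ n / 2

noncomputable def G (n k : ℕ) : ℝ := 2 * P n k + n.choose k + ((n : ℝ) - 2 * k) * n.choose k

lemma P_succ (n k : ℕ) : P n (k + 1) = P n k + n.choose k := by
  unfold P; rw [F_succ]; push_cast; ring

lemma choose_succ_real (n k : ℕ) : ((k : ℝ) + 1) * n.choose (k + 1) = ((n : ℝ) - k) * n.choose k := by
  rcases le_or_gt k n with h | h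
  · have h1 := Nat.choose_succ_right_eq n k
    have h2 : ((n.choose (k + 1) * (k + 1) : ℕ) : ℝ) = (n.choose k * (n - k) : ℕ) := by rw [h1]
    push_cast [Nat.cast_sub h] at h2
    linarith
  · rw [Nat.choose_eq_zero_of_lt h, Nat.choose_eq_zero_of_lt (by omega)]; simp

lemma G_succ (n k : ℕ) : G n k ≤ G n (k + 1) := by
  have h : G n (k + 1) - G n k = (2 * (k : ℝ) + 1 - n) * ((n.choose k : ℝ) - n.choose (k + 1)) := by
    unfold G; rw [P_succ]; push_cast; ring
  have h2 : ((k : ℝ) + 1) * ((n.choose k : ℝ) - n.choose (k + 1)) = (2 * (k : ℝ) + 1 - n) * n.choose k := by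
    have := choose_succ_real n k
    linear_combination -this
  have hk : (0 : ℝ) < (k : ℝ) + 1 := by positivity
  have hc : (0 : ℝ) ≤ n.choose k := by positivity
  have h3 : 0 ≤ (2 * (k : ℝ) + 1 - n) * ((n.choose k : ℝ) - n.choose (k + 1)) := by
    have h4 : 0 ≤ ((k : ℝ) + 1) * ((2 * (k : ℝ) + 1 - n) * ((n.choose k : ℝ) - n.choose (k + 1))) := by
      have : ((k : ℝ) + 1) * ((2 * (k : ℝ) + 1 - n) * ((n.choose k : ℝ) - n.choose (k + 1)))
          = (2 * (k : ℝ) + 1 - n) ^ 2 * n.choose k := by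
        linear_combination (2 * (k : ℝ) + 1 - n) * h2
      rw [this]; positivity
    exact nonneg_of_mul_nonneg_right h4 hk
  linarith

lemma G_mono (n : ℕ) : Monotone (G n) := monotone_nat_of_le_succ (G_succ n)

noncomputable def V (n k : ℕ) : ℝ := n * (P n k) ^ 2 + (k * (n.choose k : ℝ)) ^ 2

lemma V_succ (n k : ℕ) : V n (k + 1) - V n k = n * n.choose k * G n k := by
  unfold V G
  rw [P_succ]
  have := choose_succ_real n k
  push_cast
  have h : ((k : ℝ) + 1) ^ 2 * (n.choose (k + 1) : ℝ) ^ 2 = (((n : ℝ) - k) * n.choose k) ^ 2 := by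
    rw [← this]; ring
  linear_combination h

lemma V_min (n j : ℕ) (hG : G n j = 0) (k : ℕ) : V n j ≤ V n k := by
  rcases le_total j k with h | h
  · induction k, h using Nat.le_induction with
    | base => exact le_refl _
    | succ k hk ih =>
      have h1 := V_succ n k
      have h2 : 0 ≤ G n k := by rw [← hG]; exact G_mono n hk
      have h3 : 0 ≤ n * (n.choose k : ℝ) * G n k := by positivity
      linarith
  · have key : ∀ d, d ≤ j → V n j ≤ V n (j - d) := by
      intro d
      induction d with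
      | zero => intro _; exact le_refl _
      | succ d ih =>
        intro hd
        have h0 := ih (by omega)
        obtain ⟨t, ht⟩ : ∃ t, j - d = t + 1 := ⟨j - d - 1, by omega⟩
        have ht2 : j - (d + 1) = t := by omega
        rw [ht] at h0
        rw [ht2]
        have h1 := V_succ n t
        have h2 : G n t ≤ 0 := by rw [← hG]; exact G_mono n (by omega)
        have h3 : n * (n.choose t : ℝ) * G n t ≤ 0 := mul_nonpos_of_nonneg_of_nonpos (by positivity) h2
        linarith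
    have := key (j - k) (by omega)
    rwa [show j - (j - k) = k by omega] at this

lemma F_odd (j : ℕ) : F (2 * j + 1) (j + 1) = 4 ^ j := Nat.sum_range_choose_halfway j

lemma G_even (j : ℕ) : G (2 * j) j = 0 := by
  have h1 := F_pascal (2 * j) j
  rw [F_odd, F_succ] at h1
  have h2 : ((4 : ℝ) ^ j) = (F (2 * j) j : ℝ) + (2 * j).choose j + F (2 * j) j := by exact_mod_cast h1
  unfold G P
  have h3 : (2 : ℝ) ^ (2 * j) = 4 ^ j := by rw [pow_mul]; norm_num
  rw [h3, h2]; push_cast; ring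

lemma G_odd (j : ℕ) : G (2 * j + 1) j = 0 := by
  have h1 := F_odd j
  rw [F_succ] at h1
  have h2 : (F (2 * j + 1) j : ℝ) + (2 * j + 1).choose j = 4 ^ j := by exact_mod_cast h1
  unfold G P
  have h3 : (2 : ℝ) ^ (2 * j + 1) = 2 * 4 ^ j := by rw [pow_succ, pow_mul]; norm_num; ring
  rw [h3, ← h2]; push_cast; ring

/-- the value at majority -/
noncomputable def maj (j : ℕ) : ℝ := (2 * j + 1) * ((j.centralBinom : ℝ) / 4 ^ j) ^ 2

lemma V_even (j : ℕ) : 4 * V (2 * j) j = (2 * j : ℕ) * (2 ^ (2 * j)) ^ 2 * maj j := by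
  have h1 := G_even j
  unfold G at h1
  have hP : P (2 * j) j = -((2 * j).choose j : ℝ) / 2 := by push_cast at h1; linarith
  unfold V maj
  rw [hP, Nat.centralBinom]
  have h3 : (2 : ℝ) ^ (2 * j) = 4 ^ j := by rw [pow_mul]; norm_num
  rw [h3]
  have h4 : (4 : ℝ) ^ j ≠ 0 := by positivity
  push_cast
  field_simp
  ring

lemma V_odd (j : ℕ) : 4 * V (2 * j + 1) j = (2 * j + 1 : ℕ) * (2 ^ (2 * j + 1)) ^ 2 * maj j := by
  have h1 := G_odd j
  unfold G at h1
  have hP : P (2 * j + 1) j = -((2 * j + 1).choose j : ℝ) := by push_cast at h1; linarith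
  have h5 : ((j : ℝ) + 1) * ((2 * j + 1).choose j : ℝ) = (2 * j + 1) * (2 * j).choose j := by
    have h6 := Nat.add_one_mul_choose_eq (2 * j) j
    have h7 : ((2 * j + 1).choose (j + 1)) = (2 * j + 1).choose j := by
      rw [← Nat.choose_symm_of_eq_add]; omega
    rw [h7] at h6
    have h8 : (((2 * j + 1) * (2 * j).choose j : ℕ) : ℝ) = ((2 * j + 1).choose j * (j + 1) : ℕ) := by rw [h6]
    push_cast at h8
    linarith
  unfold V maj
  rw [hP, Nat.centralBinom]
  have h3 : (2 : ℝ) ^ (2 * j + 1) = 2 * 4 ^ j := by rw [pow_succ, pow_mul]; norm_num; ring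
  rw [h3]
  have h4 : (4 : ℝ) ^ j ≠ 0 := by positivity
  push_cast
  have h9 : (2 * (j : ℝ) + 1) * (2 * 4 ^ j) ^ 2 * ((2 * j + 1) * (((2 * j).choose j : ℝ) / 4 ^ j) ^ 2)
      = 4 * ((2 * j + 1) * (2 * j).choose j) ^ 2 := by
    field_simp; ring
  rw [h9, ← h5]
  ring

lemma maj_ge (j : ℕ) : 2 / Real.pi ≤ maj j := by
  have h1 := Real.Wallis.W_le j
  have h2 := Real.Wallis.W_eq_factorial_ratio j
  have h3 : maj j * Real.Wallis.W j = 1 := by
    rw [h2]
    unfold maj
    have hc : (j.centralBinom : ℝ) * (j.factorial : ℝ) ^ 2 = (2 * j).factorial := by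
      have := Nat.centralBinom_eq_two_mul_choose j
      have h5 := Nat.choose_mul_factorial_mul_factorial (n := 2 * j) (k := j) (by omega)
      rw [this]
      have h6 : 2 * j - j = j := by omega
      rw [h6] at h5
      have h7 : ((2 * j).choose j : ℝ) * j.factorial * j.factorial = (2 * j).factorial := by exact_mod_cast h5
      linear_combination h7
    have hf : (j.factorial : ℝ) ≠ 0 := by positivity
    have hf2 : ((2 * j).factorial : ℝ) ≠ 0 := by positivity
    have hc2 : (j.centralBinom : ℝ) ≠ 0 := by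
      have := j.centralBinom_pos
      positivity
    rw [← hc]
    have h4 : (2 : ℝ) ^ (4 * j) = (4 ^ j) ^ 2 := by
      rw [← pow_mul, mul_comm j 2, pow_mul, pow_mul]; norm_num
    rw [h4]
    field_simp
  have hW : 0 < Real.Wallis.W j := Real.Wallis.W_pos j
  have hm : maj j = 1 / Real.Wallis.W j := by
    field_simp; linarith
  rw [hm, div_le_div_iff₀ Real.pi_pos hW]
  linarith

lemma T_sum (m k : ℕ) : ∑ j ∈ range k, (m.choose j : ℝ) * ((m : ℝ) - 2 * j) = k * m.choose k := by
  induction k with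
  | zero => simp
  | succ k ih =>
    rw [sum_range_succ, ih]
    have := choose_succ_real m k
    push_cast
    linear_combination -this

lemma S0_sum (m k : ℕ) (hk : k ≤ m + 1) :
    ∑ j ∈ range (m + 1), (m.choose j : ℝ) * (if j < k then 1 else -1) = 2 * P m k := by
  have h1 : ∀ j ∈ range (m + 1), (m.choose j : ℝ) * (if j < k then 1 else -1)
      = 2 * (if j < k then (m.choose j : ℝ) else 0) - m.choose j := by
    intro j _; split_ifs <;> ring
  rw [sum_congr rfl h1, sum_sub_distrib, ← mul_sum, ← sum_filter]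
  have h2 : (range (m + 1)).filter (fun j => j < k) = range k := by
    ext j; simp only [mem_filter, mem_range]; omega
  rw [h2]
  have h3 : ∑ j ∈ range (m + 1), (m.choose j : ℝ) = 2 ^ m := by exact_mod_cast Nat.sum_range_choose m
  rw [h3]
  unfold P F
  push_cast; ring

lemma S1_sum (m k : ℕ) (hk : k ≤ m + 1) :
    ∑ j ∈ range (m + 1), (m.choose j : ℝ) * ((if j < k then 1 else -1) * ((m : ℝ) - 2 * j)) = 2 * (k * m.choose k) := by
  have h1 : ∀ j ∈ range (m + 1), (m.choose j : ℝ) * ((if j < k then 1 else -1) * ((m : ℝ) - 2 * j))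
      = 2 * (if j < k then (m.choose j : ℝ) * ((m : ℝ) - 2 * j) else 0) - m.choose j * ((m : ℝ) - 2 * j) := by
    intro j _; split_ifs <;> ring
  rw [sum_congr rfl h1, sum_sub_distrib, ← mul_sum, ← sum_filter]
  have h2 : (range (m + 1)).filter (fun j => j < k) = range k := by
    ext j; simp only [mem_filter, mem_range]; omega
  rw [h2, T_sum, T_sum]
  simp

/-- sign of a bit -/
def s (b : Bool) : ℝ := if b then (-1:ℝ) else 1

noncomputable def eqv {m : ℕ} (τ : Fin m → Bool) : (Fin m → Bool) ≃ Finset (Fin m) where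
  toFun x := univ.filter (fun i => x i = τ i)
  invFun D := fun i => if i ∈ D then τ i else !τ i
  left_inv x := by
    funext i
    simp only [mem_filter, mem_univ, true_and]
    split_ifs with h
    · exact h.symm
    · cases hx : x i <;> cases ht : τ i <;> simp_all
  right_inv D := by
    ext i
    simp only [mem_filter, mem_univ, true_and]
    split_ifs with h
    · simp [h]
    · simp [h]

lemma sum_eqv {m : ℕ} (τ : Fin m → Bool) (Φ : ℕ → ℝ) :
    ∑ x : Fin m → Bool, Φ (univ.filter (fun i => x i = τ i)).card = ∑ j ∈ range (m + 1), (m.choose j : ℝ) * Φ j := by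
  have h1 := Fintype.sum_equiv (eqv τ) (fun x => Φ (univ.filter (fun i => x i = τ i)).card)
    (fun D => Φ D.card) (fun x => rfl)
  rw [h1]
  have h2 := Finset.sum_powerset_apply_card (x := (univ : Finset (Fin m))) Φ
  rw [powerset_univ] at h2
  rw [h2]
  simp

lemma exists_thr (m : ℕ) (c t : ℝ) (hc : 0 < c) :
    ∃ k ≤ m + 1, ∀ j ≤ m, (j < k ↔ 0 < t + c * ((m : ℝ) - 2 * j)) := by
  have hex : ∃ k, k = m + 1 ∨ ¬ 0 < t + c * ((m : ℝ) - 2 * k) := ⟨m + 1, Or.inl rfl⟩
  obtain ⟨k, hk1, hk2⟩ : ∃ k, (k = m + 1 ∨ ¬ 0 < t + c * ((m : ℝ) - 2 * k)) ∧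
      ∀ j < k, ¬ (j = m + 1 ∨ ¬ 0 < t + c * ((m : ℝ) - 2 * j)) := by
    classical
    exact ⟨Nat.find hex, Nat.find_spec hex, fun j hj => Nat.find_min hex hj⟩
  refine ⟨k, ?_, ?_⟩
  · by_contra hcon
    exact hk2 (m + 1) (by omega) (Or.inl rfl)
  intro j hj
  constructor
  · intro h
    have := hk2 j h
    push Not at this
    exact this.2
  · intro h
    by_contra hcon
    push Not at hcon
    rcases hk1 with h1 | h1
    · omega
    · apply h1
      have h2 : (k : ℝ) ≤ j := by exact_mod_cast hcon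
      nlinarith

lemma cube {m : ℕ} (a : Fin m → ℝ) (c : ℝ) (hc : 0 < c) (ha : ∀ i, |a i| = c) (t : ℝ)
    (f : (Fin m → Bool) → ℝ) (hf : ∀ x, f x = 1 ∨ f x = -1)
    (hs : ∀ x, 0 < f x * (t + ∑ i, a i * s (x i))) :
    ∃ k ≤ m + 1, (∑ x, f x = 2 * P m k) ∧
      ∑ i, a i * ∑ x, f x * s (x i) = 2 * c * (k * m.choose k) := by
  obtain ⟨k, hk, hthr⟩ := exists_thr m c t hc
  refine ⟨k, hk, ?_⟩
  let τ : Fin m → Bool := fun i => decide (0 < a i)
  have hform : ∀ x : Fin m → Bool, ∑ i, a i * s (x i) = c * ((m : ℝ) - 2 * (univ.filter (fun i => x i = τ i)).card) := by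
    intro x
    have h1 : ∀ i, a i * s (x i) = c - 2 * c * (if x i = τ i then 1 else 0) := by
      intro i
      have hi := ha i
      simp only [s]
      rcases lt_or_ge 0 (a i) with h | h
      · rw [abs_of_pos h] at hi
        have hd : τ i = true := decide_eq_true h
        rw [hi]
        cases hx : x i
        · simp [hd]
        · simp [hd]; ring
      · rw [abs_of_nonpos h] at hi
        have hd : τ i = false := decide_eq_false (not_lt.2 h)
        have hi2 : a i = -c := by linarith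
        rw [hi2]
        cases hx : x i
        · simp [hd]; ring
        · simp [hd]
    simp only [h1]
    rw [sum_sub_distrib, ← mul_sum]
    simp
    ring
  have hfx : ∀ x, f x = (if (univ.filter (fun i => x i = τ i)).card < k then (1:ℝ) else -1) := by
    intro x
    have hcard : (univ.filter (fun i => x i = τ i)).card ≤ m := by
      refine (card_le_univ _).trans ?_; simp
    have h1 := hs x
    rw [hform x] at h1
    have h2 := hthr _ hcard
    split_ifs with h
    · have h3 := h2.1 h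
      rcases hf x with h4 | h4
      · exact h4
      · rw [h4] at h1; nlinarith
    · have h3 : ¬ 0 < t + c * ((m : ℝ) - 2 * (univ.filter (fun i => x i = τ i)).card) := fun h' => h (h2.2 h')
      rcases hf x with h4 | h4
      · rw [h4] at h1; exact absurd (by linarith) h3
      · exact h4
  constructor
  · rw [← S0_sum m k hk, ← sum_eqv τ (fun j => if j < k then (1:ℝ) else -1)]
    exact sum_congr rfl (fun x _ => hfx x)
  · have h1 : ∑ i, a i * ∑ x, f x * s (x i) = ∑ x, f x * ∑ i, a i * s (x i) := by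
      simp only [mul_sum]
      rw [sum_comm]
      refine sum_congr rfl fun x _ => sum_congr rfl fun i _ => by ring
    rw [h1]
    have h2 : ∑ x, f x * ∑ i, a i * s (x i) = c * ∑ x : Fin m → Bool,
        (fun j : ℕ => (if j < k then (1:ℝ) else -1) * ((m : ℝ) - 2 * j)) (univ.filter (fun i => x i = τ i)).card := by
      rw [mul_sum]
      refine sum_congr rfl fun x _ => ?_
      rw [hfx x, hform x]
      ring
    rw [h2, sum_eqv τ (fun j : ℕ => (if j < k then (1:ℝ) else -1) * ((m : ℝ) - 2 * j)), S1_sum m k hk]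
    ring

lemma V_ge (m k : ℕ) : m * (2 ^ m) ^ 2 * maj (m / 2) ≤ 4 * V m k := by
  rcases Nat.even_or_odd' m with ⟨j, hj | hj⟩
  · have h1 := V_min m j (by rw [hj]; exact G_even j) k
    have h2 : m / 2 = j := by omega
    have h3 := V_even j
    rw [← hj] at h3
    rw [h2, ← h3]
    linarith
  · have h1 := V_min m j (by rw [hj]; exact G_odd j) k
    have h2 : m / 2 = j := by omega
    have h3 := V_odd j
    rw [← hj] at h3
    rw [h2, ← h3]
    linarith

theorem equal_weights : ∀ n : ℕ, ∀ f : (Fin n → Bool) → ℝ, ∀ a : Fin n → ℝ, ∀ a0 c : ℝ,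
      (∀ i, |a i| = c) →
      (∀ x, f x = 1 ∨ f x = -1) →
      (∀ x, 0 < f x * (a0 + ∑ i, a i * (if x i then (-1:ℝ) else 1))) →
      maj (n / 2) ≤ ((∑ x, f x) / (2:ℝ) ^ n) ^ 2 +
          ∑ i, ((∑ x, f x * (if x i then (-1:ℝ) else 1)) / (2:ℝ) ^ n) ^ 2 := by
  intro n f a a0 c ha hf hs
  have h2n : (0:ℝ) < 2 ^ n := by positivity
  by_cases hz : n = 0 ∨ c = 0
  · -- f is constant
    have hconst : ∀ x : Fin n → Bool, a0 + ∑ i, a i * (if x i then (-1:ℝ) else 1) = a0 := by
      intro x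
      rcases hz with h | h
      · subst h; simp
      · have : ∀ i, a i = 0 := fun i => abs_eq_zero.1 ((ha i).trans h)
        simp [this]
    have hff : (∀ x, f x = 1) ∨ (∀ x, f x = -1) := by
      rcases lt_trichotomy a0 0 with h | h | h
      · right; intro x
        have := hs x; rw [hconst x] at this
        rcases hf x with h1 | h1
        · rw [h1] at this; linarith
        · exact h1
      · exfalso
        have := hs (fun _ => true); rw [hconst, h] at this; simp at this
      · left; intro x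
        have := hs x; rw [hconst x] at this
        rcases hf x with h1 | h1
        · exact h1
        · rw [h1] at this; linarith
    have hsum : ((∑ x, f x) / (2:ℝ) ^ n) ^ 2 = 1 := by
      rcases hff with h | h
      · simp [h]
      · simp [h]
    rw [hsum]
    have hm1 : maj (n / 2) ≤ 1 := by
      have h1 := V_ge n 0
      have h2 : V n 0 = n * (2 ^ n / 2) ^ 2 := by unfold V P F; simp
      rcases Nat.eq_zero_or_pos n with h | h
      · subst h; unfold maj; simp
      · have hn : (0:ℝ) < n := by exact_mod_cast h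
        rw [h2] at h1
        have h3 : (n:ℝ) * (2 ^ n) ^ 2 * maj (n / 2) ≤ n * (2 ^ n) ^ 2 * 1 := by
          calc (n:ℝ) * (2 ^ n) ^ 2 * maj (n / 2) ≤ 4 * (n * (2 ^ n / 2) ^ 2) := h1
            _ = n * (2 ^ n) ^ 2 * 1 := by ring
        exact le_of_mul_le_mul_left h3 (by positivity)
    have : 0 ≤ ∑ i, ((∑ x, f x * (if x i then (-1:ℝ) else 1)) / (2:ℝ) ^ n) ^ 2 :=
      sum_nonneg (fun i _ => sq_nonneg _)
    linarith
  · push Not at hz
    obtain ⟨hn0, hc0⟩ := hz
    have hn : (0:ℝ) < n := by exact_mod_cast Nat.pos_of_ne_zero hn0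
    have hc : 0 < c := by
      have h1 := ha ⟨0, Nat.pos_of_ne_zero hn0⟩
      exact lt_of_le_of_ne (h1 ▸ abs_nonneg _) (Ne.symm hc0)
    obtain ⟨k, hk, hA, hB⟩ := cube a c hc ha a0 f hf hs
    have hCS : (∑ i, a i * ∑ x, f x * s (x i)) ^ 2 ≤ (∑ i, a i ^ 2) * ∑ i, (∑ x, f x * s (x i)) ^ 2 :=
      Finset.sum_mul_sq_le_sq_mul_sq _ _ _
    have ha2 : ∑ i, a i ^ 2 = n * c ^ 2 := by
      have : ∀ i, a i ^ 2 = c ^ 2 := fun i => by rw [← ha i, sq_abs]
      simp [this]
    rw [hB, ha2] at hCS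
    have hCS2 : (4:ℝ) * (k * n.choose k) ^ 2 ≤ n * ∑ i, (∑ x, f x * s (x i)) ^ 2 := by
      have : c ^ 2 * (4 * (k * n.choose k) ^ 2) ≤ c ^ 2 * (n * ∑ i, (∑ x, f x * s (x i)) ^ 2) := by
        linarith
      exact le_of_mul_le_mul_left this (by positivity)
    have hV := V_ge n k
    have hmain : n * (2 ^ n) ^ 2 * maj (n / 2) ≤ n * ((∑ x, f x) ^ 2 + ∑ i, (∑ x, f x * s (x i)) ^ 2) := by
      rw [hA]
      unfold V at hV
      linarith
    have hmain2 : (2 ^ n) ^ 2 * maj (n / 2) ≤ (∑ x, f x) ^ 2 + ∑ i, (∑ x, f x * s (x i)) ^ 2 := by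
      have : (n:ℝ) * ((2 ^ n) ^ 2 * maj (n / 2)) ≤ n * ((∑ x, f x) ^ 2 + ∑ i, (∑ x, f x * s (x i)) ^ 2) := by
        linarith
      exact le_of_mul_le_mul_left this hn
    simp only [div_pow]
    rw [← sum_div, ← add_div, le_div_iff₀ (by positivity)]
    unfold s at hmain2
    linarith

noncomputable def H (m p q : ℕ) : ℝ :=
  2 * m * ((P m p) ^ 2 + (P m q) ^ 2) + (p * (m.choose p : ℝ) + q * (m.choose q : ℝ)) ^ 2

noncomputable def D (m q p : ℕ) : ℝ :=
  4 * m * P m p + 2 * m * (m.choose p : ℝ) + ((m : ℝ) - 2 * p) * (m * (m.choose p : ℝ) + 2 * (q * (m.choose q : ℝ)))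

noncomputable def g (m p : ℕ) : ℝ :=
  2 * (m.choose p : ℝ) + (2 * (p : ℝ) - m) * ((m.choose p : ℝ) - m.choose (p + 1))

noncomputable def E (m q p : ℕ) : ℝ := m * g m p - 4 * (q * (m.choose q : ℝ))

lemma H_comm (m p q : ℕ) : H m p q = H m q p := by unfold H; ring

lemma H_succ (m p q : ℕ) : H m (p + 1) q - H m p q = m.choose p * D m q p := by
  unfold H D
  rw [P_succ]
  have := choose_succ_real m p
  push_cast
  have h : ((p : ℝ) + 1) * (m.choose (p + 1) : ℝ) = ((m : ℝ) - p) * m.choose p := this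
  rw [h]
  ring

lemma D_succ (m q p : ℕ) : D m q (p + 1) = D m q p + E m q p := by
  unfold D E g
  rw [P_succ]
  push_cast
  ring

lemma g_diff (m p : ℕ) : ((p : ℝ) + 1) * (p + 2) * (g m (p + 1) - g m p)
    = m.choose p * ((2 * (p : ℝ) - m + 2) * (m + 2 - (2 * (p : ℝ) - m + 2) ^ 2)) := by
  have r1 := choose_succ_real m p
  have r2 := choose_succ_real m (p + 1)
  unfold g
  push_cast at r2 ⊢
  linear_combination (-(((p : ℝ) + 1) * (2 * (p : ℝ) - m + 2))) * r2 +
    (((p : ℝ) + 2) * (2 * (2 * (p : ℝ) - m) + 4) - (2 * (p : ℝ) - m + 2) * ((m : ℝ) - p - 1)) * r1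

lemma g_down {m p : ℕ} (hp : (m : ℝ) ≤ 2 * p) (h : (m : ℝ) + 2 ≤ (2 * (p : ℝ) - m + 2) ^ 2) :
    g m (p + 1) ≤ g m p := by
  have h1 := g_diff m p
  have h2 : (m.choose p : ℝ) * ((2 * (p : ℝ) - m + 2) * (m + 2 - (2 * (p : ℝ) - m + 2) ^ 2)) ≤ 0 := by
    apply mul_nonpos_of_nonneg_of_nonpos (by positivity)
    apply mul_nonpos_of_nonneg_of_nonpos <;> linarith
  rw [← h1] at h2
  have h3 : (0 : ℝ) < ((p : ℝ) + 1) * (p + 2) := by positivity
  by_contra hcon
  push Not at hcon
  have : 0 < ((p : ℝ) + 1) * (p + 2) * (g m (p + 1) - g m p) := mul_pos h3 (by linarith)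
  linarith

lemma g_up {m p : ℕ} (hp : (m : ℝ) ≤ 2 * p) (h : (2 * (p : ℝ) - m + 2) ^ 2 ≤ (m : ℝ) + 2) :
    g m p ≤ g m (p + 1) := by
  have h1 := g_diff m p
  have h2 : 0 ≤ (m.choose p : ℝ) * ((2 * (p : ℝ) - m + 2) * (m + 2 - (2 * (p : ℝ) - m + 2) ^ 2)) := by
    apply mul_nonneg (by positivity)
    apply mul_nonneg <;> linarith
  rw [← h1] at h2
  have h3 : (0 : ℝ) < ((p : ℝ) + 1) * (p + 2) := by positivity
  by_contra hcon
  push Not at hcon
  have : ((p : ℝ) + 1) * (p + 2) * (g m (p + 1) - g m p) < 0 := mul_neg_of_pos_of_neg h3 (by linarith)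
  linarith

lemma inv_g {m r : ℕ} (hr : m ≤ 2 * r) (p : ℕ) (hp : r ≤ p) :
    g m r ≤ g m p ∨ (m : ℝ) + 2 ≤ (2 * (p : ℝ) - m + 2) ^ 2 := by
  induction p, hp using Nat.le_induction with
  | base => left; exact le_refl _
  | succ p hp ih =>
    have hm : (m : ℝ) ≤ 2 * p := by
      have : m ≤ 2 * p := by omega
      exact_mod_cast this
    have hstep : (m : ℝ) + 2 ≤ (2 * (p : ℝ) - m + 2) ^ 2 → (m : ℝ) + 2 ≤ (2 * ((p + 1 : ℕ) : ℝ) - m + 2) ^ 2 := by
      intro h; push_cast; nlinarith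
    rcases ih with h | h
    · rcases le_total ((2 * (p : ℝ) - m + 2) ^ 2) ((m : ℝ) + 2) with h1 | h1
      · left; exact h.trans (g_up hm h1)
      · right; exact hstep h1
    · right; exact hstep h

lemma E_neg {m q r : ℕ} (hr : m ≤ 2 * r) (hE : 0 ≤ E m q r) (p : ℕ) (hp : r ≤ p) (h : E m q p < 0) :
    E m q (p + 1) < 0 := by
  have hm : (m : ℝ) ≤ 2 * p := by
    have : m ≤ 2 * p := by omega
    exact_mod_cast this
  rcases inv_g hr p hp with h1 | h1
  · exfalso
    unfold E at hE h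
    have h2 : (m : ℝ) * g m r ≤ m * g m p := by gcongr
    linarith
  · have h2 := g_down hm h1
    unfold E at h ⊢
    have h3 : (m : ℝ) * g m (p + 1) ≤ m * g m p := by gcongr
    linarith

lemma inv_D {m q r : ℕ} (hr : m ≤ 2 * r) (hE : 0 ≤ E m q r) (hD : 0 ≤ D m q r) (p : ℕ) (hp : r ≤ p) :
    0 ≤ D m q p ∨ (D m q p < 0 ∧ E m q p < 0) := by
  induction p, hp using Nat.le_induction with
  | base => left; exact hD
  | succ p hp ih =>
    have hs := D_succ m q p
    rcases ih with h | ⟨h, h'⟩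
    · rcases le_or_gt 0 (D m q (p + 1)) with h1 | h1
      · left; exact h1
      · right
        exact ⟨h1, E_neg hr hE p hp (by linarith)⟩
    · right
      exact ⟨by linarith, E_neg hr hE p hp h'⟩

lemma pers {m q r : ℕ} (hr : m ≤ 2 * r) (hE : 0 ≤ E m q r) (hD : 0 ≤ D m q r) (p : ℕ) (hp : r ≤ p)
    (h : D m q p < 0) (p' : ℕ) (hp' : p ≤ p') : D m q p' < 0 := by
  have h0 : D m q p < 0 ∧ E m q p < 0 := by
    rcases inv_D hr hE hD p hp with h1 | h1
    · linarith
    · exact h1
  have : D m q p' < 0 ∧ E m q p' < 0 := by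
    induction p', hp' using Nat.le_induction with
    | base => exact h0
    | succ t ht ih =>
      have hs := D_succ m q t
      exact ⟨by linarith [ih.1, ih.2], E_neg hr hE t (by omega) ih.2⟩
  exact this.1

lemma H_down {m q p : ℕ} (h : ∀ t, p ≤ t → D m q t < 0) (p' : ℕ) (hp' : p ≤ p') : H m p' q ≤ H m p q := by
  induction p', hp' using Nat.le_induction with
  | base => exact le_refl _
  | succ t ht ih =>
    have h1 := H_succ m t q
    have h2 : (m.choose t : ℝ) * D m q t ≤ 0 := mul_nonpos_of_nonneg_of_nonpos (by positivity) (h t ht).le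
    linarith

lemma H_up {m q r : ℕ} (p : ℕ) (hp : r ≤ p) (h : ∀ t, r ≤ t → t < p → 0 ≤ D m q t) : H m r q ≤ H m p q := by
  induction p, hp using Nat.le_induction with
  | base => exact le_refl _
  | succ t ht ih =>
    have h1 := H_succ m t q
    have h2 : 0 ≤ (m.choose t : ℝ) * D m q t := mul_nonneg (by positivity) (h t ht (by omega))
    have h3 := ih (fun u hu hu' => h u hu (by omega))
    linarith

lemma H_chain {m q r : ℕ} (hr : m ≤ 2 * r) (hE : 0 ≤ E m q r) (hD : 0 ≤ D m q r) (p : ℕ) (hp : r ≤ p)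
    (hp2 : p ≤ m + 1) : H m r q ≤ H m p q ∨ H m (m + 1) q ≤ H m p q := by
  by_cases h : ∀ t, r ≤ t → t < p → 0 ≤ D m q t
  · left; exact H_up p hp h
  · right
    push Not at h
    obtain ⟨t, ht1, ht2, ht3⟩ := h
    apply H_down _ (m + 1) hp2
    intro u hu
    exact pers hr hE hD t ht1 ht3 u (by omega)

lemma H_diag (m q : ℕ) : H m q q = 4 * V m q := by unfold H V; ring

lemma kappa_le : 2 / Real.pi ≤ 2 / 3 := by
  have := Real.pi_gt_three
  rw [div_le_div_iff₀ Real.pi_pos (by norm_num)]; linarith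

lemma H_diag_ge (m q : ℕ) : m * (2 ^ m) ^ 2 * (2 / Real.pi) ≤ H m q q := by
  rw [H_diag]
  refine le_trans ?_ (V_ge m q)
  gcongr
  exact maj_ge _

lemma H_top_ge (m q : ℕ) : m * (2 ^ m) ^ 2 * (2 / Real.pi) ≤ H m (m + 1) q := by
  have h1 := V_ge m q
  have hP : P m (m + 1) = 2 ^ m / 2 := by
    unfold P F
    rw [Nat.sum_range_choose]; push_cast; ring
  have hc : m.choose (m + 1) = 0 := Nat.choose_succ_self m
  unfold H
  rw [hP, hc]
  have h2 : m * (2 ^ m) ^ 2 * (2 / Real.pi) ≤ 4 * V m q := by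
    refine le_trans ?_ h1
    gcongr
    exact maj_ge _
  unfold V at h2
  have hk := kappa_le
  have h3 : (m : ℝ) * (2 ^ m) ^ 2 * (2 / Real.pi) ≤ m * (2 ^ m) ^ 2 * (2 / 3) := by gcongr
  have h4 : 0 ≤ (m : ℝ) * (P m q) ^ 2 := by positivity
  push_cast
  nlinarith

lemma E_self (m q : ℕ) : ((q : ℝ) + 1) * E m q q
    = m.choose q * ((2 * (q : ℝ) - m) * (((m : ℝ) - 1) * (2 * (q : ℝ) - m) - 2)) := by
  have r1 := choose_succ_real m q
  unfold E g
  linear_combination (-((m : ℝ) * (2 * (q : ℝ) - m))) * r1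

lemma E_self_nonneg {m q : ℕ} (h1 : (m : ℝ) ≤ 2 * q) (h2 : 2 ≤ ((m : ℝ) - 1) * (2 * (q : ℝ) - m)) :
    0 ≤ E m q q := by
  have h3 := E_self m q
  have h4 : 0 ≤ (m.choose q : ℝ) * ((2 * (q : ℝ) - m) * (((m : ℝ) - 1) * (2 * (q : ℝ) - m) - 2)) := by
    apply mul_nonneg (by positivity)
    apply mul_nonneg <;> linarith
  rw [← h3] at h4
  exact nonneg_of_mul_nonneg_right h4 (by positivity)

lemma Dst_succ (m q : ℕ) : ((q : ℝ) + 1) * (D m (q + 1) (q + 1) - D m q q)
    = m.choose q * ((2 * (q : ℝ) - m) * (2 * (q : ℝ) - m + 1) * (2 * (q : ℝ) - m + 2 + 2 * m)) := by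
  have r1 := choose_succ_real m q
  unfold D
  rw [P_succ]
  push_cast
  linear_combination (2 * (m : ℝ) + ((m : ℝ) - 2 * q - 2) * (m + 2 * q + 2)) * r1

lemma Dst_mono {m q : ℕ} (h1 : (m : ℝ) ≤ 2 * q) : D m q q ≤ D m (q + 1) (q + 1) := by
  have h3 := Dst_succ m q
  have h4 : 0 ≤ (m.choose q : ℝ) * ((2 * (q : ℝ) - m) * (2 * (q : ℝ) - m + 1) * (2 * (q : ℝ) - m + 2 + 2 * m)) := by
    apply mul_nonneg (by positivity)
    apply mul_nonneg
    · apply mul_nonneg <;> linarith
    · have : (0:ℝ) ≤ m := by positivity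
      linarith
  rw [← h3] at h4
  have := nonneg_of_mul_nonneg_right h4 (by positivity)
  linarith

lemma Dst_even (j q : ℕ) (hq : j ≤ q) : 0 ≤ D (2 * j) q q := by
  induction q, hq using Nat.le_induction with
  | base =>
    have h := G_even j
    unfold G at h
    unfold D
    push_cast at h ⊢
    have : 2 * P (2 * j) j + ((2 * j).choose j : ℝ) = 0 := by linarith
    have h2 : 4 * (2 * (j : ℝ)) * P (2 * j) j + 2 * (2 * (j : ℝ)) * ((2 * j).choose j : ℝ)
      + (2 * (j : ℝ) - 2 * j) * (2 * (j : ℝ) * ((2 * j).choose j : ℝ) + 2 * (j * ((2 * j).choose j : ℝ))) = 0 := by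
      linear_combination (4 * (j : ℝ)) * this
    rw [h2]
  | succ q hq ih =>
    refine ih.trans (Dst_mono ?_)
    have : 2 * j ≤ 2 * q := by omega
    exact_mod_cast this

lemma P_center (j : ℕ) : P (2 * j + 1) (j + 1) = 0 := by
  unfold P
  rw [F_odd]
  have h3 : (2 : ℝ) ^ (2 * j + 1) = 2 * 4 ^ j := by rw [pow_succ, pow_mul]; norm_num; ring
  rw [h3]; push_cast; ring

lemma D_center (j : ℕ) : D (2 * j + 1) (j + 1) (j + 1) = -((2 * j + 1).choose (j + 1) : ℝ) := by
  unfold D
  rw [P_center]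
  push_cast
  ring

lemma Dst_odd (j q : ℕ) (hq : j + 2 ≤ q) : 0 ≤ D (2 * j + 1) q q := by
  induction q, hq using Nat.le_induction with
  | base =>
    have h := Dst_succ (2 * j + 1) (j + 1)
    rw [D_center] at h
    have h5 : (2 * (((j + 1 : ℕ) : ℝ)) - ((2 * j + 1 : ℕ) : ℝ)) = 1 := by push_cast; ring
    rw [h5] at h
    push_cast at h
    have hc : (0:ℝ) ≤ ((2 * j + 1).choose (j + 1) : ℝ) := by positivity
    have h6 : ((j : ℝ) + 1 + 1) * D (2 * j + 1) (j + 1 + 1) (j + 1 + 1)
      = ((2 * j + 1).choose (j + 1) : ℝ) * (7 * j + 8) := by linarith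
    have h7 : 0 ≤ ((j : ℝ) + 1 + 1) * D (2 * j + 1) (j + 1 + 1) (j + 1 + 1) := by rw [h6]; positivity
    exact nonneg_of_mul_nonneg_right h7 (by positivity)
  | succ q hq ih =>
    refine ih.trans (Dst_mono ?_)
    have : 2 * j + 1 ≤ 2 * q := by omega
    exact_mod_cast this

/-- exceptional starting point -/
lemma E_exc (j : ℕ) (hj : 4 ≤ j) : 0 ≤ E (2 * j + 1) (j + 1) (j + 2) := by
  have r1 := choose_succ_real (2 * j + 1) (j + 1)
  have r2 := choose_succ_real (2 * j + 1) (j + 2)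
  push_cast at r1 r2
  have hj4 : (4:ℝ) ≤ j := by exact_mod_cast hj
  have hc : (0:ℝ) ≤ ((2 * j + 1).choose (j + 1) : ℝ) := by positivity
  have key : ((j : ℝ) + 2) * (j + 3) * E (2 * j + 1) (j + 1) (j + 2)
      = ((2 * j + 1).choose (j + 1) : ℝ) * (14 * (j:ℝ) ^ 2 - 26 * j - 24) := by
    unfold E g
    push_cast
    linear_combination (2 * (j:ℝ) + 1) * (2 * (j + 3) + 12) * r1 - ((2 * (j:ℝ) + 1) * 3 * (j + 2)) * r2
  have h7 : 0 ≤ ((j : ℝ) + 2) * (j + 3) * E (2 * j + 1) (j + 1) (j + 2) := by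
    rw [key]
    apply mul_nonneg hc
    nlinarith
  exact nonneg_of_mul_nonneg_right h7 (by positivity)

lemma D_exc (j : ℕ) (hj : 4 ≤ j) : 0 ≤ D (2 * j + 1) (j + 1) (j + 2) := by
  have hj4 : (4:ℝ) ≤ j := by exact_mod_cast hj
  have h1 := D_succ (2 * j + 1) (j + 1) (j + 1)
  rw [D_center] at h1
  have h2 := E_self (2 * j + 1) (j + 1)
  have h5 : (2 * (((j + 1 : ℕ) : ℝ)) - ((2 * j + 1 : ℕ) : ℝ)) = 1 := by push_cast; ring
  rw [h5] at h2
  push_cast at h2
  have hc : (0:ℝ) ≤ ((2 * j + 1).choose (j + 1) : ℝ) := by positivity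
  have h7 : 0 ≤ ((j : ℝ) + 2) * D (2 * j + 1) (j + 1) (j + 2) := by
    have : ((j : ℝ) + 2) * D (2 * j + 1) (j + 1) (j + 2) = ((2 * j + 1).choose (j + 1) : ℝ) * (j - 4) := by
      have e : D (2 * j + 1) (j + 1) (j + 2) = D (2 * j + 1) (j + 1) (j + 1 + 1) := rfl
      rw [e, h1]
      linear_combination h2
    rw [this]
    apply mul_nonneg hc; linarith
  exact nonneg_of_mul_nonneg_right h7 (by positivity)

lemma H_exc (j : ℕ) : ((2 * j + 1 : ℕ) : ℝ) * (2 ^ (2 * j + 1)) ^ 2 * maj (j + 1) = H (2 * j + 1) (j + 2) (j + 1) := by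
  have h1 := H_succ (2 * j + 1) (j + 1) (j + 1)
  rw [D_center, H_diag] at h1
  have hV : V (2 * j + 1) (j + 1) = (((j : ℝ) + 1) * ((2 * j + 1).choose (j + 1) : ℝ)) ^ 2 := by
    unfold V; rw [P_center]; push_cast; ring
  rw [hV] at h1
  have hcb : ((j + 1).centralBinom : ℝ) = 2 * ((2 * j + 1).choose (j + 1) : ℝ) := by
    have e1 : (j + 1).centralBinom = (2 * j + 1).choose j + (2 * j + 1).choose (j + 1) := by
      rw [Nat.centralBinom, show 2 * (j + 1) = (2 * j + 1) + 1 by ring, Nat.choose_succ_succ]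
    rw [← Nat.choose_symm_half] at e1
    rw [e1]; push_cast; ring
  have e : H (2 * j + 1) (j + 2) (j + 1) = H (2 * j + 1) (j + 1 + 1) (j + 1) := rfl
  rw [e]
  unfold maj
  rw [hcb]
  have h3 : (2 : ℝ) ^ (2 * j + 1) = 2 * 4 ^ j := by rw [pow_succ, pow_mul]; norm_num; ring
  rw [h3]
  have h4 : (4 : ℝ) ^ j ≠ 0 := by positivity
  have h9 : ((2 * j + 1 : ℕ) : ℝ) * (2 * 4 ^ j) ^ 2 * ((2 * ((j + 1 : ℕ) : ℝ) + 1) * (2 * ((2 * j + 1).choose (j + 1) : ℝ) / 4 ^ (j + 1)) ^ 2)
      = (2 * j + 1) * (2 * j + 3) * ((2 * j + 1).choose (j + 1) : ℝ) ^ 2 := by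
    push_cast
    rw [pow_succ (4:ℝ) j]
    field_simp; ring
  rw [h9]
  linear_combination -h1

lemma P_refl (m k : ℕ) (hk : k ≤ m + 1) : P m (m + 1 - k) = - P m k := by
  have h : F m k + F m (m + 1 - k) = 2 ^ m := by
    induction k with
    | zero => 
      have := Nat.sum_range_choose m
      simp [F, this]
    | succ k ih =>
      have h1 := ih (by omega)
      have h2 : m + 1 - k = (m + 1 - (k + 1)) + 1 := by omega
      rw [h2, F_succ] at h1
      rw [F_succ]
      have h3 : m.choose (m + 1 - (k + 1)) = m.choose k := by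
        rw [show m + 1 - (k + 1) = m - k by omega]
        exact Nat.choose_symm (by omega)
      rw [h3] at h1
      omega
  have h2 : (F m k : ℝ) + F m (m + 1 - k) = 2 ^ m := by exact_mod_cast h
  unfold P; linarith

lemma Q_refl (m k : ℕ) (hk : k ≤ m + 1) :
    ((m + 1 - k : ℕ) : ℝ) * (m.choose (m + 1 - k) : ℝ) = k * (m.choose k : ℝ) := by
  rcases Nat.eq_zero_or_pos k with h | h
  · subst h; simp
  · obtain ⟨t, rfl⟩ : ∃ t, k = t + 1 := ⟨k - 1, by omega⟩
    have h1 := choose_succ_real m t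
    have h2 : m + 1 - (t + 1) = m - t := by omega
    rw [h2, Nat.choose_symm (by omega), Nat.cast_sub (by omega)]
    push_cast
    linarith

lemma H_refl (m p q : ℕ) (hp : p ≤ m + 1) : H m (m + 1 - p) q = H m p q := by
  unfold H
  rw [P_refl m p hp, Q_refl m p hp]
  ring

lemma upper (m p : ℕ) (hp : p ≤ m + 1) : ∃ p', p' ≤ m + 1 ∧ m + 1 ≤ 2 * p' ∧ ∀ q, H m p' q = H m p q := by
  by_cases h : m + 1 ≤ 2 * p
  · exact ⟨p, hp, h, fun q => rfl⟩
  · exact ⟨m + 1 - p, by omega, by omega, fun q => H_refl m p q hp⟩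

lemma small {m p q : ℕ} (h : (m : ℝ) * (2 ^ m) ^ 2 * (2 / 3.14) ≤ H m p q) :
    (m : ℝ) * (2 ^ m) ^ 2 * (2 / Real.pi) ≤ H m p q := by
  refine le_trans ?_ h
  gcongr
  exact Real.pi_gt_d2.le

lemma core_upper (m p q : ℕ) (hq : m + 1 ≤ 2 * q) (hqp : q ≤ p) (hp : p ≤ m + 1) :
    (m : ℝ) * (2 ^ m) ^ 2 * (2 / Real.pi) ≤ H m p q := by
  have hchain : 0 ≤ E m q q → 0 ≤ D m q q → (m : ℝ) * (2 ^ m) ^ 2 * (2 / Real.pi) ≤ H m p q := by
    intro hE hD
    rcases H_chain (by omega) hE hD p hqp hp with h | h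
    · exact (H_diag_ge m q).trans h
    · exact (H_top_ge m q).trans h
  rcases Nat.even_or_odd' m with ⟨j, hj | hj⟩
  · rcases Nat.eq_zero_or_pos j with h0 | h0
    · have hm : m = 0 := by omega
      subst hm
      have : (0:ℝ) ≤ H 0 p q := by unfold H; positivity
      simpa using this
    · apply hchain
      · have hj1 : (1:ℝ) ≤ j := by exact_mod_cast h0
        have hq1 : (j:ℝ) + 1 ≤ q := by
          have : j + 1 ≤ q := by omega
          exact_mod_cast this
        have hm : (m:ℝ) = 2 * j := by rw [hj]; push_cast; ring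
        apply E_self_nonneg
        · rw [hm]; linarith
        · rw [hm]; nlinarith
      · rw [hj]; exact Dst_even j q (by omega)
  · rcases Nat.lt_or_ge (j + 1) q with h2 | h2
    · rcases Nat.eq_zero_or_pos j with h0 | h0
      · have : p = q := by omega
        subst this
        exact H_diag_ge m p
      · apply hchain
        · have hj1 : (1:ℝ) ≤ j := by exact_mod_cast h0
          have hq1 : (j:ℝ) + 2 ≤ q := by
            have : j + 2 ≤ q := by omega
            exact_mod_cast this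
          have hm : (m:ℝ) = 2 * j + 1 := by rw [hj]; push_cast; ring
          apply E_self_nonneg
          · rw [hm]; linarith
          · rw [hm]; nlinarith
        · rw [hj]; exact Dst_odd j q (by omega)
    · have hqj : q = j + 1 := by omega
      rcases Nat.eq_or_lt_of_le hqp with h3 | h3
      · rw [← h3]; exact H_diag_ge m q
      · rcases Nat.lt_or_ge j 4 with h4 | h4
        · subst hqj
          interval_cases j
          · have : m = 1 := by omega
            subst this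
            have : p = 2 := by omega
            subst this
            exact H_top_ge 1 1
          · have : m = 3 := by omega
            subst this
            have : p = 3 ∨ p = 4 := by omega
            rcases this with h | h <;> subst h <;> apply small <;> unfold H P F <;> norm_num [Finset.sum_range_succ, Nat.choose]
          · have : m = 5 := by omega
            subst this
            have : p = 4 ∨ p = 5 ∨ p = 6 := by omega
            rcases this with h | h | h <;> subst h <;> apply small <;> unfold H P F <;> norm_num [Finset.sum_range_succ, Nat.choose]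
          · have : m = 7 := by omega
            subst this
            have : p = 5 ∨ p = 6 ∨ p = 7 ∨ p = 8 := by omega
            rcases this with h | h | h | h <;> subst h <;> apply small <;> unfold H P F <;> norm_num [Finset.sum_range_succ, Nat.choose]
        · subst hqj
          subst hj
          rcases H_chain (m := 2 * j + 1) (q := j + 1) (r := j + 2) (by omega) (E_exc j h4) (D_exc j h4) p (by omega) hp with h | h
          · refine le_trans ?_ h
            rw [← H_exc]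
            gcongr
            exact maj_ge _
          · exact (H_top_ge _ _).trans h

lemma core (m p q : ℕ) (hp : p ≤ m + 1) (hq : q ≤ m + 1) :
    (m : ℝ) * (2 ^ m) ^ 2 * (2 / Real.pi) ≤ H m p q := by
  obtain ⟨p', hp1, hp2, hp3⟩ := upper m p hp
  obtain ⟨q', hq1, hq2, hq3⟩ := upper m q hq
  rw [← hp3 q, H_comm, ← hq3 p']
  rcases le_total p' q' with h | h
  · exact core_upper m q' p' hp2 h hq1
  · rw [H_comm]
    exact core_upper m p' q' hq2 h hp1

/-- sum over the cube split at the coordinate `i0` -/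
lemma sum_split {m : ℕ} (i0 : Fin (m + 1)) (Φ : (Fin (m + 1) → Bool) → ℝ) :
    ∑ x, Φ x = ∑ y : Fin m → Bool, Φ (i0.insertNth (α := fun _ => Bool) false y)
      + ∑ y : Fin m → Bool, Φ (i0.insertNth (α := fun _ => Bool) true y) := by
  have h := Fintype.sum_equiv (Fin.insertNthEquiv (fun _ => Bool) i0)
    (fun z : Bool × (Fin m → Bool) => Φ (i0.insertNth (α := fun _ => Bool) z.1 z.2)) Φ (fun z => rfl)
  rw [← h, Fintype.sum_prod_type]
  simp only [Fintype.univ_bool, sum_insert, mem_singleton, Bool.true_eq_false, not_false_eq_true, sum_singleton]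
  ring

theorem main : ∀ n : ℕ, ∀ f : (Fin n → Bool) → ℝ, ∀ a : Fin n → ℝ, ∀ a0 c : ℝ, ∀ i0 : Fin n,
      (∀ i, i ≠ i0 → |a i| = c) →
      (∀ x, f x = 1 ∨ f x = -1) →
      (∀ x, 0 < f x * (a0 + ∑ i, a i * (if x i then (-1:ℝ) else 1))) →
      2 / Real.pi ≤ ((∑ x, f x) / (2:ℝ) ^ n) ^ 2 +
          ∑ i, ((∑ x, f x * (if x i then (-1:ℝ) else 1)) / (2:ℝ) ^ n) ^ 2 := by
  intro n f a a0 c i0 ha hf hs
  obtain ⟨m, rfl⟩ : ∃ m, n = m + 1 := ⟨n - 1, by have := i0.pos; omega⟩
  have h2m : (0:ℝ) < 2 ^ m := by positivity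
  let fF : (Fin m → Bool) → ℝ := fun y => f (i0.insertNth (α := fun _ => Bool) false y)
  let fT : (Fin m → Bool) → ℝ := fun y => f (i0.insertNth (α := fun _ => Bool) true y)
  let b : Fin m → ℝ := fun i => a (i0.succAbove i)
  have hb : ∀ i, |b i| = c := fun i => ha _ (Fin.succAbove_ne i0 i)
  have hfF : ∀ y, fF y = 1 ∨ fF y = -1 := fun y => hf _
  have hfT : ∀ y, fT y = 1 ∨ fT y = -1 := fun y => hf _
  have hsF : ∀ y, 0 < fF y * ((a0 + a i0) + ∑ i, b i * s (y i)) := by
    intro y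
    have h := hs (i0.insertNth (α := fun _ => Bool) false y)
    rw [Fin.sum_univ_succAbove _ i0] at h
    simp only [Fin.insertNth_apply_same, Fin.insertNth_apply_succAbove] at h
    simpa [fF, b, s, add_assoc] using h
  have hsT : ∀ y, 0 < fT y * ((a0 - a i0) + ∑ i, b i * s (y i)) := by
    intro y
    have h := hs (i0.insertNth (α := fun _ => Bool) true y)
    rw [Fin.sum_univ_succAbove _ i0] at h
    simp only [Fin.insertNth_apply_same, Fin.insertNth_apply_succAbove] at h
    simpa [fT, b, s, add_assoc, sub_eq_add_neg] using h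
  have hS0 : ∑ x, f x = ∑ y, fF y + ∑ y, fT y := sum_split i0 f
  have hSi0 : ∑ x, f x * (if x i0 then (-1:ℝ) else 1) = ∑ y, fF y - ∑ y, fT y := by
    rw [sum_split i0]
    simp only [Fin.insertNth_apply_same]
    simp [fF, fT, sub_eq_add_neg]
  have hSi : ∀ i, ∑ x, f x * (if x (i0.succAbove i) then (-1:ℝ) else 1)
      = ∑ y, fF y * s (y i) + ∑ y, fT y * s (y i) := by
    intro i
    rw [sum_split i0]
    simp only [Fin.insertNth_apply_succAbove]
    rfl
  rw [Fin.sum_univ_succAbove _ i0, hS0, hSi0]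
  simp only [hSi]
  set A := ∑ y, fF y with hA
  set B := ∑ y, fT y with hB
  have htot : ((A + B) / (2:ℝ) ^ (m + 1)) ^ 2 + (((A - B) / (2:ℝ) ^ (m + 1)) ^ 2 +
      ∑ i, ((∑ y, fF y * s (y i) + ∑ y, fT y * s (y i)) / (2:ℝ) ^ (m + 1)) ^ 2)
      = (2 * (A ^ 2 + B ^ 2) + ∑ i, (∑ y, fF y * s (y i) + ∑ y, fT y * s (y i)) ^ 2) / (4 * (2 ^ m) ^ 2) := by
    simp only [div_pow]
    rw [← sum_div]
    have h4 : ((2:ℝ) ^ (m + 1)) ^ 2 = 4 * (2 ^ m) ^ 2 := by rw [pow_succ]; ring
    rw [h4]
    ring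
  rw [htot, le_div_iff₀ (by positivity)]
  have hnn : 0 ≤ ∑ i, (∑ y, fF y * s (y i) + ∑ y, fT y * s (y i)) ^ 2 :=
    sum_nonneg (fun i _ => sq_nonneg _)
  by_cases hz : m = 0 ∨ c = 0
  · -- each slice is constant
    have hconst : ∀ (h : (Fin m → Bool) → ℝ) (t : ℝ), (∀ y, h y = 1 ∨ h y = -1) →
        (∀ y, 0 < h y * (t + ∑ i, b i * s (y i))) → (∑ y, h y) ^ 2 = (2 ^ m) ^ 2 := by
      intro h t hh hp
      have h0 : ∀ y : Fin m → Bool, ∑ i, b i * s (y i) = 0 := by
        intro y
        rcases hz with h1 | h1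
        · subst h1; simp
        · have : ∀ i, b i = 0 := fun i => abs_eq_zero.1 ((hb i).trans h1)
          simp [this]
      rcases lt_trichotomy t 0 with h1 | h1 | h1
      · have : ∀ y, h y = -1 := by
          intro y
          have h2 := hp y; rw [h0 y] at h2
          rcases hh y with h3 | h3
          · rw [h3] at h2; linarith
          · exact h3
        simp [this]
      · exfalso
        have h2 := hp (fun _ => true); rw [h0, h1] at h2; simp at h2
      · have : ∀ y, h y = 1 := by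
          intro y
          have h2 := hp y; rw [h0 y] at h2
          rcases hh y with h3 | h3
          · exact h3
          · rw [h3] at h2; linarith
        simp [this]
    have e1 := hconst fF _ hfF hsF
    have e2 := hconst fT _ hfT hsT
    rw [← hA] at e1
    rw [← hB] at e2
    rw [e1, e2]
    have hk := kappa_le
    have : 2 / Real.pi * (4 * (2 ^ m) ^ 2) ≤ 2 / 3 * (4 * (2 ^ m) ^ 2) := by gcongr
    nlinarith [sq_nonneg ((2:ℝ) ^ m)]
  · push Not at hz
    obtain ⟨hm0, hc0⟩ := hz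
    have hm : (0:ℝ) < m := by exact_mod_cast Nat.pos_of_ne_zero hm0
    have hc : 0 < c := by
      have h1 := hb ⟨0, Nat.pos_of_ne_zero hm0⟩
      exact lt_of_le_of_ne (h1 ▸ abs_nonneg _) (Ne.symm hc0)
    obtain ⟨p, hp, hA1, hA2⟩ := cube b c hc hb _ fF hfF hsF
    obtain ⟨q, hq, hB1, hB2⟩ := cube b c hc hb _ fT hfT hsT
    have hCS : (∑ i, b i * (∑ y, fF y * s (y i) + ∑ y, fT y * s (y i))) ^ 2
        ≤ (∑ i, b i ^ 2) * ∑ i, (∑ y, fF y * s (y i) + ∑ y, fT y * s (y i)) ^ 2 :=
      Finset.sum_mul_sq_le_sq_mul_sq _ _ _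
    have hb2 : ∑ i, b i ^ 2 = m * c ^ 2 := by
      have : ∀ i, b i ^ 2 = c ^ 2 := fun i => by rw [← hb i, sq_abs]
      simp [this]
    have hlin : ∑ i, b i * (∑ y, fF y * s (y i) + ∑ y, fT y * s (y i))
        = 2 * c * (p * m.choose p + q * m.choose q) := by
      simp only [mul_add]
      rw [sum_add_distrib, hA2, hB2]
    rw [hlin, hb2] at hCS
    have hCS2 : (4:ℝ) * (p * m.choose p + q * m.choose q) ^ 2
        ≤ m * ∑ i, (∑ y, fF y * s (y i) + ∑ y, fT y * s (y i)) ^ 2 := by
      have : c ^ 2 * (4 * (p * m.choose p + q * m.choose q) ^ 2)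
          ≤ c ^ 2 * (m * ∑ i, (∑ y, fF y * s (y i) + ∑ y, fT y * s (y i)) ^ 2) := by
        linarith
      exact le_of_mul_le_mul_left this (by positivity)
    have hcore := core m p q hp hq
    rw [← hA] at hA1
    rw [← hB] at hB1
    unfold H at hcore
    have hfin : (m:ℝ) * (2 / Real.pi * (4 * (2 ^ m) ^ 2)) ≤ m * (2 * (A ^ 2 + B ^ 2)
        + ∑ i, (∑ y, fF y * s (y i) + ∑ y, fT y * s (y i)) ^ 2) := by
      rw [hA1, hB1]
      linarith
    exact le_of_mul_le_mul_left hfin hm

/-- (1) If all weights have the same absolute value, the weight at degree at most 1 is at least its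
value at the majority function on `2 * (n / 2) + 1` variables.
(2) If all weights except possibly one have the same absolute value, it is at least `2 / pi`. -/
theorem result :
    (∀ n : ℕ, ∀ f : (Fin n → Bool) → ℝ, ∀ a : Fin n → ℝ, ∀ a0 c : ℝ,
      (∀ i, |a i| = c) →
      (∀ x, f x = 1 ∨ f x = -1) →
      (∀ x, 0 < f x * (a0 + ∑ i, a i * (if x i then (-1:ℝ) else 1))) →
      (2 * ((n / 2 : ℕ) : ℝ) + 1) * (((n / 2 : ℕ).centralBinom : ℝ) / 4 ^ (n / 2 : ℕ)) ^ 2 ≤
        ((∑ x, f x) / (2:ℝ) ^ n) ^ 2 +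
          ∑ i, ((∑ x, f x * (if x i then (-1:ℝ) else 1)) / (2:ℝ) ^ n) ^ 2) ∧
    (∀ n : ℕ, ∀ f : (Fin n → Bool) → ℝ, ∀ a : Fin n → ℝ, ∀ a0 c : ℝ, ∀ i0 : Fin n,
      (∀ i, i ≠ i0 → |a i| = c) →
      (∀ x, f x = 1 ∨ f x = -1) →
      (∀ x, 0 < f x * (a0 + ∑ i, a i * (if x i then (-1:ℝ) else 1))) →
      2 / Real.pi ≤
        ((∑ x, f x) / (2:ℝ) ^ n) ^ 2 +
          ∑ i, ((∑ x, f x * (if x i then (-1:ℝ) else 1)) / (2:ℝ) ^ n) ^ 2) :=
  ⟨fun n f a a0 c ha hf hs => equal_weights n f a a0 c ha hf hs, main⟩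

end Pool.Agent.Results.MP_cb3c9c_an.OneUnequalWeight
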